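import Mathlib

set_option autoImplicit false

/-!
Surface groups and the classes of essential simple closed curves (MP_f16733_gt).

`SG g` is the fundamental group of the closed orientable surface of genus `g`, with generators
`ga i`, `gb i` (`i < g`) and the relator `[a_0, b_0] ⋯ [a_(g-1), b_(g-1)]`. `sep g k` is the class
`[a_0, b_0] ⋯ [a_(k-1), b_(k-1)]` of the standard curve which cuts off a surface of genus `k`.
`IsCurve g x`: `x` is the image of a generator or of a class `sep g k` (`0 < k < g`) under an
automorphism. By the classification of curves and the Dehn-Nielsen-Baer theorem these are the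
classes of the essential simple closed curves.
-/

open scoped commutatorElement

namespace Pool.Agent.Helper78.SLC

/-- the relator `∏ [a_i, b_i]` -/
def rel (g : ℕ) : FreeGroup (Fin g × Bool) :=
  ((List.finRange g).map fun i => ⁅FreeGroup.of (i, true), FreeGroup.of (i, false)⁆).prod

/-- the fundamental group of the closed orientable surface of genus `g` -/
abbrev SG (g : ℕ) : Type := PresentedGroup {rel g}

/-- the generator `a_i` -/
def ga {g : ℕ} (i : Fin g) : SG g := PresentedGroup.of (i, true)

/-- the generator `b_i` -/
def gb {g : ℕ} (i : Fin g) : SG g := PresentedGroup.of (i, false)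

/-- the class of the standard separating curve -/
def sep (g k : ℕ) : SG g := (((List.finRange g).take k).map fun i => ⁅ga i, gb i⁆).prod

/-- `x` is the class of an essential simple closed curve -/
def IsCurve (g : ℕ) (x : SG g) : Prop :=
  (∃ (φ : SG g ≃* SG g) (i : Fin g), x = φ (ga i)) ∨
    ∃ (φ : SG g ≃* SG g) (k : ℕ), 0 < k ∧ k < g ∧ x = φ (sep g k)

end Pool.Agent.Helper78.SLC
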