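import Pool.Agent.Helper78.SLC.Sharp

set_option autoImplicit false

/-!
The sharp genus threshold.
-/

open scoped commutatorElement
open Function

namespace Pool.Agent.Helper78.SLC

private theorem detect_ns {g : ℕ} (i : Fin g) :
    ∃ F : SG g →* Af, Af.pe.comp F = 1 ∧ F (ga i) ≠ 1 := by
  obtain ⟨P, hP⟩ : ∃ P : Fin g → Af × Af, P = fun l =>
      ((⟨if l = i then 1 else 0, 0⟩ : Af), (1 : Af)) := ⟨_, rfl⟩
  obtain ⟨F, hF⟩ := exists_hom (g := g) ((List.finRange g).map P) (by simp) (by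
    rw [Af.cp_eq, List.map_map]
    have : ((fun p : Af × Af => (1 - (2 : ℚ) ^ p.2.e) * p.1.m - (1 - 2 ^ p.1.e) * p.2.m) ∘ P) =
        fun _ => (0 : ℚ) := by
      funext l
      rw [hP]
      show (1 - (2 : ℚ) ^ (1 : Af).e) * _ - (1 - 2 ^ (0 : ℤ)) * (1 : Af).m = 0
      rw [Af.one_e, Af.one_m, zpow_zero]
      ring
    rw [this]
    simp
    rfl)
  unfold st at hF
  rw [List.map_map] at hF
  have h := fun l => List.map_eq_map_iff.1 hF l (List.mem_finRange l)
  have h1 : ∀ l, F (ga l) = (P l).1 := fun l => congrArg Prod.fst (h l)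
  have h2 : ∀ l, F (gb l) = (P l).2 := fun l => congrArg Prod.snd (h l)
  refine ⟨F, ?_, ?_⟩
  · refine PresentedGroup.ext fun x => ?_
    obtain ⟨l, b⟩ := x
    cases b
    · show Multiplicative.ofAdd (F (gb l)).e = 1
      rw [h2, hP]
      rfl
    · show Multiplicative.ofAdd (F (ga l)).e = 1
      rw [h1, hP]
      rfl
  · intro hc
    rw [h1, hP] at hc
    have := congrArg Af.m hc
    rw [Af.one_m] at this
    simp at this

private theorem lag_surj {g : ℕ} (ψ : SG g →* Multiplicative (Fin g → ℤ))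
    (hb : ∀ i, ψ (gb i) = Multiplicative.ofAdd (Pi.single i 1)) : Surjective ψ := by
  intro v
  have h1 : v ∈ ψ.range := by
    have h2 : v = ∏ i : Fin g, (Multiplicative.ofAdd (Pi.single i 1 : Fin g → ℤ)) ^
        (Multiplicative.toAdd v i) := by
      apply Multiplicative.toAdd.injective
      rw [toAdd_prod]
      funext c
      rw [Finset.sum_apply]
      simp [Pi.single_apply]
    rw [h2]
    refine Subgroup.prod_mem _ fun i _ => Subgroup.zpow_mem _ ?_ _
    exact ⟨gb i, hb i⟩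
  exact h1

/-- the negative half -/
theorem part_two (g : ℕ) (hg : 2 ≤ g) :
    ∃ (G : Type) (_ : Group G) (ρ : G →* Multiplicative (Fin g → ℤ)),
      (∀ (x : G) (n : ℕ), 0 < n → x ^ n = 1 → x = 1) ∧ Surjective ρ ∧
      (∀ x ∈ ρ.ker, ∀ y ∈ ρ.ker, x * y = y * x) ∧
      ∃ f : SG g →* G, ¬ Injective f ∧ ∀ x : SG g, IsCurve g x → f x ≠ 1 := by
  obtain ⟨ψ, ha, hb⟩ := exists_lag g
  let T : Type := {F : SG g →* Af // ∃ θ : Multiplicative (Fin g → ℤ) →* Multiplicative ℤ,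
    Af.pe.comp F = θ.comp ψ}
  let Φ : SG g →* Multiplicative (Fin g → ℤ) × (T → Af) :=
    ψ.prod (MonoidHom.pi fun F : T => F.1)
  have hΦ1 : ∀ x, (Φ x).1 = ψ x := fun _ => rfl
  have hΦ2 : ∀ x (F : T), (Φ x).2 F = F.1 x := fun _ _ => rfl
  have hker : ∀ x y : SG g, ψ x = 1 → ψ y = 1 → Φ x * Φ y = Φ y * Φ x := by
    intro x y hx hy
    refine Prod.ext (mul_comm _ _) ?_
    funext F
    obtain ⟨θ, hθ⟩ := F.2
    have he : ∀ z, ψ z = 1 → (F.1 z).e = 0 := by
      intro z hz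
      have h1 : Af.pe (F.1 z) = θ (ψ z) := DFunLike.congr_fun hθ z
      rw [hz, map_one] at h1
      exact h1
    exact Af.comm_of _ _ (he x hx) (he y hy)
  refine ⟨Φ.range, inferInstance, (MonoidHom.fst _ _).comp Φ.range.subtype, ?_, ?_, ?_,
    Φ.rangeRestrict, ?_, ?_⟩
  · rintro ⟨x, hx⟩ n hn h
    have h1 : x ^ n = 1 := congrArg Subtype.val h
    refine Subtype.ext (Prod.ext ?_ ?_)
    · have h2 : x.1 ^ n = 1 := congrArg Prod.fst h1
      show x.1 = 1
      have h3 : n • Multiplicative.toAdd x.1 = 0 := h2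
      have h4 : Multiplicative.toAdd x.1 = 0 := by
        funext c
        have h5 : n • Multiplicative.toAdd x.1 c = 0 := congrFun h3 c
        rw [nsmul_eq_mul] at h5
        rcases mul_eq_zero.1 h5 with h6 | h6
        · omega
        · exact h6
      exact h4
    · funext F
      refine Af.torsion_free _ n hn ?_
      exact congrFun (congrArg Prod.snd h1) F
  · intro v
    obtain ⟨x, hx⟩ := lag_surj ψ hb v
    exact ⟨⟨Φ x, x, rfl⟩, hx⟩
  · rintro ⟨_, x, rfl⟩ hx ⟨_, y, rfl⟩ hy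
    exact Subtype.ext (hker x y hx hy)
  · intro hinj
    refine comm_ne hg (hinj ?_)
    rw [map_one, map_commutatorElement, commutatorElement_eq_one_iff_mul_comm]
    exact Subtype.ext (hker _ _ (ha _) (ha _))
  · intro x hx hc
    have hc' : Φ x = 1 := congrArg Subtype.val hc
    have hall : ∀ F : T, F.1 x = 1 := fun F => congrFun (congrArg Prod.snd hc') F
    rcases hx with ⟨φ, i, rfl⟩ | ⟨φ, k, hk0, hkg, rfl⟩
    · obtain ⟨F, hF1, hF2⟩ := detect_ns i
      have h1 := hall ⟨F.comp φ.symm.toMonoidHom, 1, by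
        rw [← MonoidHom.comp_assoc, hF1]
        rfl⟩
      refine hF2 ?_
      have h2 : F (φ.symm (φ (ga i))) = 1 := h1
      rwa [MulEquiv.symm_apply_apply] at h2
    · have h3 := handle_ne ψ ha hb φ ⟨0, by omega⟩
      have h4 := handle_ne ψ ha hb φ ⟨g - 1, by omega⟩
      have hv : ∀ j : Fin g, ψ (φ (ga j)) ≠ 1 ∨ ψ (φ (gb j)) ≠ 1 →
          ∃ v : Fin g → ℤ, v ≠ 0 ∧
            (v = vec ψ (φ (ga j)) ∨ v = vec ψ (φ (gb j))) := by
        intro j hj
        rcases hj with hj | hj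
        · exact ⟨_, fun h => hj h, Or.inl rfl⟩
        · exact ⟨_, fun h => hj h, Or.inr rfl⟩
      obtain ⟨v, hv0, hv1⟩ := hv _ h3
      obtain ⟨w, hw0, hw1⟩ := hv _ h4
      have h2v : ∃ θ : (Fin g → ℤ) →+ ℤ, θ v ≠ 0 ∧ θ w ≠ 0 := two_vec v w hv0 hw0
      obtain ⟨θ, hθv, hθw⟩ := h2v
      obtain ⟨F, hF1, hF2⟩ := detect (k := k)
        ((AddMonoidHom.toMultiplicative θ).comp (ψ.comp φ.toMonoidHom)) ⟨0, by omega⟩
        ⟨g - 1, by omega⟩ hk0 (by
          show k ≤ g - 1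
          omega)
        (by
          rcases hv1 with h | h
          · exact Or.inl fun h' => hθv (by rw [h]; exact h')
          · exact Or.inr fun h' => hθv (by rw [h]; exact h'))
        (by
          rcases hw1 with h | h
          · exact Or.inl fun h' => hθw (by rw [h]; exact h')
          · exact Or.inr fun h' => hθw (by rw [h]; exact h'))
      have h1 := hall ⟨F.comp φ.symm.toMonoidHom, AddMonoidHom.toMultiplicative θ, by
        rw [← MonoidHom.comp_assoc, hF1]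
        refine MonoidHom.ext fun z => ?_
        show (AddMonoidHom.toMultiplicative θ) (ψ (φ (φ.symm z))) =
          (AddMonoidHom.toMultiplicative θ) (ψ z)
        rw [MulEquiv.apply_symm_apply]⟩
      refine hF2 ?_
      have h2 : F (φ.symm (φ (sep g k))) = 1 := h1
      rwa [MulEquiv.symm_apply_apply] at h2

/-- the sharp threshold -/
theorem final (g : ℕ) (hg : 2 ≤ g) :
    (∀ (G : Type) [Group G] (n : ℕ) (N : ℕ → Subgroup G), n < g → N 0 = ⊤ →
      (∀ i < n, N (i + 1) ≤ N i ∧ ∃ _ : ((N (i + 1)).subgroupOf (N i)).Normal,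
        IsCyclic (N i ⧸ (N (i + 1)).subgroupOf (N i))) →
      (∀ x ∈ N n, ∀ y ∈ N n, x * y = y * x) →
      ∀ f : SG g →* G, ∃ x : SG g, IsCurve g x ∧ x ≠ 1 ∧ f x = 1) ∧
    ∃ (G : Type) (_ : Group G) (ρ : G →* Multiplicative (Fin g → ℤ)),
      (∀ (x : G) (n : ℕ), 0 < n → x ^ n = 1 → x = 1) ∧ Surjective ρ ∧
      (∀ x ∈ ρ.ker, ∀ y ∈ ρ.ker, x * y = y * x) ∧
      ∃ f : SG g →* G, ¬ Injective f ∧ ∀ x : SG g, IsCurve g x → f x ≠ 1 := by
  refine ⟨fun G _ n N hn h0 hN hab f => ?_, part_two g hg⟩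
  refine part_one g hg n hn N h0 (fun i hi x hx y hy => ?_) (fun i hi => ?_) hab f
  · obtain ⟨hle, hnor, _⟩ := hN i hi
    have h1 := hnor.conj_mem ⟨y, hle hy⟩ (by
      rw [Subgroup.mem_subgroupOf]
      exact hy) ⟨x, hx⟩
    rw [Subgroup.mem_subgroupOf] at h1
    exact h1
  · obtain ⟨hle, hnor, hcyc⟩ := hN i hi
    obtain ⟨q, hq⟩ := hcyc.exists_generator
    obtain ⟨s, rfl⟩ := QuotientGroup.mk_surjective q
    refine ⟨s, s.2, fun x hx => ?_⟩
    obtain ⟨k, hk⟩ := Subgroup.mem_zpowers_iff.1 (hq ((⟨x, hx⟩ : N i) : N i ⧸ _))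
    refine ⟨k, ?_⟩
    rw [← QuotientGroup.mk_zpow, QuotientGroup.eq, Subgroup.mem_subgroupOf] at hk
    exact hk

end Pool.Agent.Helper78.SLC
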