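import Pool.Agent.Helper78.SLC.Surface

set_option autoImplicit false

/-!
The Lagrangian homomorphism `a_i ↦ 1`, `b_i ↦ e_i` and the isotropy of its images under
automorphisms (lifts to the Heisenberg group).
-/

open scoped commutatorElement

namespace Pool.Agent.Helper78.SLC

/-- Heisenberg group -/
@[ext]
structure He where
  x : ℤ
  y : ℤ
  z : ℤ

namespace He

instance : Mul He := ⟨fun p q => ⟨p.x + q.x, p.y + q.y, p.z + q.z + p.x * q.y⟩⟩

instance : One He := ⟨⟨0, 0, 0⟩⟩

instance : Inv He := ⟨fun p => ⟨-p.x, -p.y, -p.z + p.x * p.y⟩⟩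

theorem mul_x (p q : He) : (p * q).x = p.x + q.x := rfl
theorem mul_y (p q : He) : (p * q).y = p.y + q.y := rfl
theorem mul_z (p q : He) : (p * q).z = p.z + q.z + p.x * q.y := rfl
theorem one_x : (1 : He).x = 0 := rfl
theorem one_y : (1 : He).y = 0 := rfl
theorem one_z : (1 : He).z = 0 := rfl
theorem inv_x (p : He) : (p⁻¹).x = -p.x := rfl
theorem inv_y (p : He) : (p⁻¹).y = -p.y := rfl
theorem inv_z (p : He) : (p⁻¹).z = -p.z + p.x * p.y := rfl

instance : Group He := Group.ofLeftAxioms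
  (fun p q r => by ext <;> simp only [mul_x, mul_y, mul_z] <;> ring)
  (fun p => by ext <;> simp only [mul_x, mul_y, mul_z, one_x, one_y, one_z] <;> ring)
  (fun p => by
    ext <;> simp only [mul_x, mul_y, mul_z, one_x, one_y, one_z, inv_x, inv_y, inv_z] <;> ring)

/-- the `x` coordinate -/
def px : He →* Multiplicative ℤ where
  toFun p := Multiplicative.ofAdd p.x
  map_one' := rfl
  map_mul' p q := rfl

/-- the `y` coordinate -/
def py : He →* Multiplicative ℤ where
  toFun p := Multiplicative.ofAdd p.y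
  map_one' := rfl
  map_mul' p q := rfl

theorem comm (p q : He) : ⁅p, q⁆ = ⟨0, 0, p.x * q.y - p.y * q.x⟩ := by
  rw [commutatorElement_def]
  ext
  · simp only [mul_x, inv_x]
    ring
  · simp only [mul_y, inv_y]
    ring
  · simp only [mul_x, mul_y, mul_z, inv_x, inv_y, inv_z]
    ring

theorem cp_eq (l : List (He × He)) :
    cp l = ⟨0, 0, (l.map fun p => p.1.x * p.2.y - p.1.y * p.2.x).sum⟩ := by
  induction l with
  | nil => rfl
  | cons p l ih =>
    have h : cp (p :: l) = ⁅p.1, p.2⁆ * cp l := rfl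
    rw [h, ih, comm]
    ext
    · simp only [mul_x]
      ring
    · simp only [mul_y]
      ring
    · simp only [mul_z, List.map_cons, List.sum_cons]
      ring

end He

/-- the value of a homomorphism to `ℤ^g` as a vector -/
abbrev vec {g h : ℕ} (ψ : SG g →* Multiplicative (Fin h → ℤ)) (x : SG g) : Fin h → ℤ :=
  Multiplicative.toAdd (ψ x)

theorem exists_lag (g : ℕ) : ∃ ψ : SG g →* Multiplicative (Fin g → ℤ),
    (∀ i, ψ (ga i) = 1) ∧ ∀ i, ψ (gb i) = Multiplicative.ofAdd (Pi.single i 1) := by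
  obtain ⟨τ, hτ⟩ : ∃ τ : List (Multiplicative (Fin g → ℤ) × Multiplicative (Fin g → ℤ)),
      τ = (List.finRange g).map fun i => (1, Multiplicative.ofAdd (Pi.single i 1)) := ⟨_, rfl⟩
  obtain ⟨F, hF⟩ := exists_hom (g := g) τ (by rw [hτ]; simp) (by
    unfold cp
    refine List.prod_eq_one fun z hz => ?_
    obtain ⟨p, _, rfl⟩ := List.mem_map.1 hz
    exact commutatorElement_eq_one_iff_mul_comm.2 (mul_comm _ _))
  rw [hτ] at hF
  unfold st at hF
  rw [List.map_map] at hF
  have h := fun i => List.map_eq_map_iff.1 hF i (List.mem_finRange i)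
  exact ⟨F, fun i => congrArg Prod.fst (h i), fun i => congrArg Prod.snd (h i)⟩

variable {g : ℕ} (ψ : SG g →* Multiplicative (Fin g → ℤ)) (ha : ∀ i, ψ (ga i) = 1)
  (hb : ∀ i, ψ (gb i) = Multiplicative.ofAdd (Pi.single i 1))

include ha hb in
private theorem heis (c d : Fin g) : ∃ F : SG g →* He,
    (∀ x, (F x).x = vec ψ x c) ∧ ∀ x, (F x).y = vec ψ x d := by
  obtain ⟨τ, hτ⟩ : ∃ τ : List (He × He), τ = (List.finRange g).map fun i =>
      ((1 : He), (⟨(Pi.single i 1 : Fin g → ℤ) c, (Pi.single i 1 : Fin g → ℤ) d, 0⟩ : He)) :=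
    ⟨_, rfl⟩
  obtain ⟨F, hF⟩ := exists_hom (g := g) τ (by rw [hτ]; simp) (by
    rw [hτ, He.cp_eq, List.map_map]
    have : ((fun p : He × He => p.1.x * p.2.y - p.1.y * p.2.x) ∘ fun i => ((1 : He),
        (⟨(Pi.single i 1 : Fin g → ℤ) c, (Pi.single i 1 : Fin g → ℤ) d, 0⟩ : He))) =
        fun _ => (0 : ℤ) := by
      funext i
      show (1 : He).x * _ - (1 : He).y * _ = 0
      rw [He.one_x, He.one_y]
      ring
    rw [this]
    simp
    rfl)
  rw [hτ] at hF
  unfold st at hF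
  rw [List.map_map] at hF
  have h := fun i => List.map_eq_map_iff.1 hF i (List.mem_finRange i)
  have h1 : ∀ i, F (ga i) = 1 := fun i => congrArg Prod.fst (h i)
  have h2 : ∀ i, F (gb i) =
      ⟨(Pi.single i 1 : Fin g → ℤ) c, (Pi.single i 1 : Fin g → ℤ) d, 0⟩ :=
    fun i => congrArg Prod.snd (h i)
  have key : ∀ (e : Fin g) (P : He →* Multiplicative ℤ),
      (∀ i, P ⟨(Pi.single i 1 : Fin g → ℤ) c, (Pi.single i 1 : Fin g → ℤ) d, 0⟩ =
        Multiplicative.ofAdd ((Pi.single i 1 : Fin g → ℤ) e)) →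
      P.comp F = (AddMonoidHom.toMultiplicative (Pi.evalAddMonoidHom (fun _ => ℤ) e)).comp ψ := by
    intro e P hP
    refine PresentedGroup.ext fun x => ?_
    obtain ⟨i, b⟩ := x
    cases b
    · show P (F (gb i)) = _
      rw [h2, hP]
      show _ = (AddMonoidHom.toMultiplicative (Pi.evalAddMonoidHom (fun _ => ℤ) e)) (ψ (gb i))
      rw [hb]
      rfl
    · show P (F (ga i)) = _
      rw [h1, map_one]
      show _ = (AddMonoidHom.toMultiplicative (Pi.evalAddMonoidHom (fun _ => ℤ) e)) (ψ (ga i))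
      rw [ha, map_one]
  have k1 := key c He.px fun i => rfl
  have k2 := key d He.py fun i => rfl
  exact ⟨F, fun x => congrArg Multiplicative.toAdd (DFunLike.congr_fun k1 x),
    fun x => congrArg Multiplicative.toAdd (DFunLike.congr_fun k2 x)⟩

include ha hb in
/-- isotropy -/
theorem isot (φ : SG g ≃* SG g) (c d : Fin g) :
    ∑ j : Fin g, (vec ψ (φ (ga j)) c * vec ψ (φ (gb j)) d -
      vec ψ (φ (ga j)) d * vec ψ (φ (gb j)) c) = 0 := by
  obtain ⟨F, hx, hy⟩ := heis ψ ha hb c d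
  have h1 : cp ((st g).map (Prod.map (F.comp φ.toMonoidHom) (F.comp φ.toMonoidHom))) = 1 := by
    rw [cp_map, cp_st, map_one]
  rw [He.cp_eq] at h1
  have h2 := congrArg He.z h1
  unfold st at h2
  rw [He.one_z, List.map_map, List.map_map] at h2
  rw [Fin.sum_univ_def, ← h2]
  congr 1
  refine List.map_congr_left fun j _ => ?_
  show _ = (F (φ (ga j))).x * (F (φ (gb j))).y - (F (φ (ga j))).y * (F (φ (gb j))).x
  rw [hx, hx, hy, hy]

private theorem span_gen {h : ℕ} (ρ : SG g →* Multiplicative (Fin h → ℤ)) (y : SG g) :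
    ∃ u : Fin g × Bool → ℤ, ∀ c, ∑ x : Fin g × Bool,
      u x * vec ρ (PresentedGroup.of x) c = vec ρ y c := by
  have h1 : y ∈ Subgroup.closure (Set.range (PresentedGroup.of : Fin g × Bool → SG g)) := by
    rw [PresentedGroup.closure_range_of]
    exact Subgroup.mem_top y
  induction h1 using Subgroup.closure_induction with
  | mem y hy =>
    obtain ⟨x, rfl⟩ := hy
    exact ⟨Pi.single x 1, fun c => by simp [Pi.single_apply]⟩
  | one => exact ⟨0, fun c => by simp [vec]⟩
  | mul y z _ _ hy hz =>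
    obtain ⟨u, hu⟩ := hy
    obtain ⟨v, hv⟩ := hz
    refine ⟨u + v, fun c => ?_⟩
    have : vec ρ (y * z) c = vec ρ y c + vec ρ z c := by
      unfold vec
      rw [map_mul]
      rfl
    rw [this, ← hu, ← hv, ← Finset.sum_add_distrib]
    refine Finset.sum_congr rfl fun x _ => ?_
    rw [Pi.add_apply, add_mul]
  | inv y _ hy =>
    obtain ⟨u, hu⟩ := hy
    refine ⟨-u, fun c => ?_⟩
    have : vec ρ y⁻¹ c = -vec ρ y c := by
      unfold vec
      rw [map_inv]
      rfl
    rw [this, ← hu, ← Finset.sum_neg_distrib]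
    refine Finset.sum_congr rfl fun x _ => ?_
    rw [Pi.neg_apply, neg_mul]

private theorem rank_bound (m : ℕ) (A B : Fin (m + 1) → Fin (m + 1) → ℤ) (i : Fin (m + 1))
    (hi : ∀ c, A i c = 0 ∧ B i c = 0)
    (hgen : ∀ e : Fin (m + 1), ∃ u v : Fin (m + 1) → ℤ, ∀ c,
      ∑ j, (u j * A j c + v j * B j c) = if c = e then 1 else 0)
    (hiso : ∀ c d, ∑ j, (A j c * B j d - A j d * B j c) = 0) : False := by
  choose u v huv using hgen
  have h1 : ∀ e c, ∑ j : Fin m, (u e (i.succAbove j) * A (i.succAbove j) c +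
      v e (i.succAbove j) * B (i.succAbove j) c) = if c = e then 1 else 0 := by
    intro e c
    have := huv e c
    rw [Fin.sum_univ_succAbove _ i, (hi c).1, (hi c).2, mul_zero, mul_zero, add_zero,
      zero_add] at this
    exact this
  have h2 : ∀ c d, ∑ j : Fin m, (A (i.succAbove j) c * B (i.succAbove j) d -
      A (i.succAbove j) d * B (i.succAbove j) c) = 0 := by
    intro c d
    have := hiso c d
    rw [Fin.sum_univ_succAbove _ i, (hi c).1, (hi d).1, zero_mul, zero_mul, sub_zero,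
      zero_add] at this
    exact this
  obtain ⟨M, hM⟩ : ∃ M : Matrix (Fin (m + 1)) (Fin m ⊕ Fin m) ℚ, M = fun c x =>
    Sum.elim (fun j => ((A (i.succAbove j) c : ℤ) : ℚ)) (fun j => ((B (i.succAbove j) c : ℤ) : ℚ))
      x := ⟨_, rfl⟩
  obtain ⟨N, hN⟩ : ∃ N : Matrix (Fin m ⊕ Fin m) (Fin (m + 1)) ℚ, N = fun x d =>
    Sum.elim (fun j => ((B (i.succAbove j) d : ℤ) : ℚ)) (fun j => -((A (i.succAbove j) d : ℤ) : ℚ))
      x := ⟨_, rfl⟩
  obtain ⟨R, hR⟩ : ∃ R : Matrix (Fin m ⊕ Fin m) (Fin (m + 1)) ℚ, R = fun x e =>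
    Sum.elim (fun j => ((u e (i.succAbove j) : ℤ) : ℚ)) (fun j => ((v e (i.succAbove j) : ℤ) : ℚ))
      x := ⟨_, rfl⟩
  obtain ⟨S, hS⟩ : ∃ S : Matrix (Fin (m + 1)) (Fin m ⊕ Fin m) ℚ, S = fun e x =>
    Sum.elim (fun j => ((v e (i.succAbove j) : ℤ) : ℚ)) (fun j => -((u e (i.succAbove j) : ℤ) : ℚ))
      x := ⟨_, rfl⟩
  have hMN : M * N = 0 := by
    ext c d
    rw [Matrix.mul_apply, Matrix.zero_apply, Fintype.sum_sum_type, ← Finset.sum_add_distrib]
    have := h2 c d
    have h3 : ((∑ j : Fin m, (A (i.succAbove j) c * B (i.succAbove j) d -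
      A (i.succAbove j) d * B (i.succAbove j) c) : ℤ) : ℚ) = 0 := by
      rw [this]
      rfl
    rw [← h3]
    push_cast
    refine Finset.sum_congr rfl fun j _ => ?_
    rw [hM, hN]
    show ((A (i.succAbove j) c : ℤ) : ℚ) * ((B (i.succAbove j) d : ℤ) : ℚ) +
      ((B (i.succAbove j) c : ℤ) : ℚ) * (-((A (i.succAbove j) d : ℤ) : ℚ)) = _
    ring
  have hMR : M * R = 1 := by
    ext c e
    rw [Matrix.mul_apply, Fintype.sum_sum_type, ← Finset.sum_add_distrib]
    have h3 : ((∑ j : Fin m, (u e (i.succAbove j) * A (i.succAbove j) c +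
      v e (i.succAbove j) * B (i.succAbove j) c) : ℤ) : ℚ) = (1 : Matrix _ _ ℚ) c e := by
      rw [h1 e c, Matrix.one_apply]
      push_cast
      rfl
    rw [← h3]
    push_cast
    refine Finset.sum_congr rfl fun j _ => ?_
    rw [hM, hR]
    show ((A (i.succAbove j) c : ℤ) : ℚ) * ((u e (i.succAbove j) : ℤ) : ℚ) +
      ((B (i.succAbove j) c : ℤ) : ℚ) * ((v e (i.succAbove j) : ℤ) : ℚ) = _
    ring
  have hSN : S * N = 1 := by
    ext e d
    rw [Matrix.mul_apply, Fintype.sum_sum_type, ← Finset.sum_add_distrib]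
    have h3 : ((∑ j : Fin m, (u e (i.succAbove j) * A (i.succAbove j) d +
      v e (i.succAbove j) * B (i.succAbove j) d) : ℤ) : ℚ) = (1 : Matrix _ _ ℚ) e d := by
      rw [h1 e d, Matrix.one_apply]
      push_cast
      simp only [eq_comm]
    rw [← h3]
    push_cast
    refine Finset.sum_congr rfl fun j _ => ?_
    rw [hS, hN]
    show ((v e (i.succAbove j) : ℤ) : ℚ) * ((B (i.succAbove j) d : ℤ) : ℚ) +
      (-((u e (i.succAbove j) : ℤ) : ℚ)) * (-((A (i.succAbove j) d : ℤ) : ℚ)) = _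
    ring
  have r1 : m + 1 ≤ M.rank := by
    have := Matrix.rank_mul_le_left M R
    rw [hMR, Matrix.rank_one, Fintype.card_fin] at this
    exact this
  have r2 : m + 1 ≤ N.rank := by
    have := Matrix.rank_mul_le_right S N
    rw [hSN, Matrix.rank_one, Fintype.card_fin] at this
    exact this
  have r3 := Matrix.rank_add_rank_le_card_of_mul_eq_zero hMN
  rw [Fintype.card_sum, Fintype.card_fin] at r3
  omega

include ha hb in
/-- no handle of no basis is killed by the Lagrangian homomorphism -/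
theorem handle_ne (φ : SG g ≃* SG g) (i : Fin g) :
    ψ (φ (ga i)) ≠ 1 ∨ ψ (φ (gb i)) ≠ 1 := by
  by_contra hcon
  push Not at hcon
  obtain ⟨m, rfl⟩ : ∃ m, g = m + 1 := ⟨g - 1, by have := i.2; omega⟩
  refine rank_bound m (fun j c => vec ψ (φ (ga j)) c) (fun j c => vec ψ (φ (gb j)) c) i
    (fun c => ⟨?_, ?_⟩) (fun e => ?_) (isot ψ ha hb φ)
  · show vec ψ (φ (ga i)) c = 0
    unfold vec
    rw [hcon.1]
    rfl
  · show vec ψ (φ (gb i)) c = 0
    unfold vec
    rw [hcon.2]
    rfl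
  · obtain ⟨w, hw⟩ := span_gen (ψ.comp φ.toMonoidHom) (φ.symm (gb e))
    refine ⟨fun j => w (j, true), fun j => w (j, false), fun c => ?_⟩
    have h1 := hw c
    have h2 : vec (ψ.comp φ.toMonoidHom) (φ.symm (gb e)) c = if c = e then 1 else 0 := by
      unfold vec
      show Multiplicative.toAdd (ψ (φ (φ.symm (gb e)))) c = _
      rw [MulEquiv.apply_symm_apply, hb]
      show (Pi.single e 1 : Fin (m + 1) → ℤ) c = _
      rw [Pi.single_apply]
    rw [h2, Fintype.sum_prod_type] at h1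
    rw [← h1]
    refine Finset.sum_congr rfl fun j _ => ?_
    rw [Fintype.sum_bool]
    rfl

end Pool.Agent.Helper78.SLC
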