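import Mathlib

set_option autoImplicit false

/-!
Moves on lists of pairs of elements of a group which keep the product of the commutators (Dehn
twists on the handles and between two consecutive handles).
-/

open scoped commutatorElement

namespace Pool.Agent.Helper78.SLC

/-- the product of the commutators of the pairs of a list -/
def cp {G : Type*} [Group G] (l : List (G × G)) : G := (l.map fun p => ⁅p.1, p.2⁆).prod

/-- moves -/
inductive Mv where
  | ta (k : ℤ) : Mv
  | tb (k : ℤ) : Mv
  | te (k : ℤ) : Mv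
  | sk (m : Mv) : Mv

/-- action of a move on a list of pairs -/
def act {G : Type*} [Group G] : Mv → List (G × G) → List (G × G)
  | .ta k, p :: l => (p.1 * p.2 ^ k, p.2) :: l
  | .tb k, p :: l => (p.1, p.2 * p.1 ^ k) :: l
  | .te k, p :: q :: l =>
      (p.1, (p.2 * p.1⁻¹ * p.2⁻¹ * q.1) ^ k * p.2) ::
      ((p.2 * p.1⁻¹ * p.2⁻¹ * q.1) ^ k * q.1 * (p.2 * p.1⁻¹ * p.2⁻¹ * q.1) ^ (-k),
        q.2 * (p.2 * p.1⁻¹ * p.2⁻¹ * q.1) ^ (-k)) :: l
  | .sk m, p :: l => p :: act m l
  | .te _, [p] => [p]
  | _, [] => []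

/-- the inverse move -/
def Mv.inv : Mv → Mv
  | .ta k => .ta (-k)
  | .tb k => .tb (-k)
  | .te k => .te (-k)
  | .sk m => .sk m.inv

/-- action of a list of moves (the head acts last) -/
def acts {G : Type*} [Group G] (ms : List Mv) (l : List (G × G)) : List (G × G) :=
  ms.foldr act l

variable {G H : Type*} [Group G] [Group H]

private theorem comm_ta (x y : G) (k : ℤ) : ⁅x * y ^ k, y⁆ = ⁅x, y⁆ := by
  rw [commutatorElement_def, commutatorElement_def]
  have h : y ^ k * y = y * y ^ k := (Commute.self_zpow y k).symm.eq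
  calc x * y ^ k * y * (x * y ^ k)⁻¹ * y⁻¹ = x * (y ^ k * y) * (x * y ^ k)⁻¹ * y⁻¹ := by group
    _ = x * (y * y ^ k) * (x * y ^ k)⁻¹ * y⁻¹ := by rw [h]
    _ = x * y * x⁻¹ * y⁻¹ := by group

private theorem comm_tb (x y : G) (k : ℤ) : ⁅x, y * x ^ k⁆ = ⁅x, y⁆ := by
  rw [commutatorElement_def, commutatorElement_def]
  have h : x ^ k * x⁻¹ = x⁻¹ * x ^ k := by
    rw [← zpow_neg_one, ← zpow_add, ← zpow_add, add_comm]
  calc x * (y * x ^ k) * x⁻¹ * (y * x ^ k)⁻¹ = x * y * (x ^ k * x⁻¹) * (y * x ^ k)⁻¹ := by group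
    _ = x * y * (x⁻¹ * x ^ k) * (y * x ^ k)⁻¹ := by rw [h]
    _ = x * y * x⁻¹ * y⁻¹ := by group

private theorem comm_te (a b c d : G) (k : ℤ) :
    ⁅a, (b * a⁻¹ * b⁻¹ * c) ^ k * b⁆ *
      ⁅(b * a⁻¹ * b⁻¹ * c) ^ k * c * (b * a⁻¹ * b⁻¹ * c) ^ (-k), d * (b * a⁻¹ * b⁻¹ * c) ^ (-k)⁆ =
      ⁅a, b⁆ * ⁅c, d⁆ := by
  obtain ⟨e, he⟩ : ∃ e, e = b * a⁻¹ * b⁻¹ * c := ⟨_, rfl⟩
  obtain ⟨E, hE⟩ : ∃ E, E = e ^ k := ⟨_, rfl⟩
  have h1 : e ^ (-k) = E⁻¹ := by rw [hE, zpow_neg]
  rw [← he, h1, ← hE]
  have hc : E * e = e * E := by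
    rw [hE]
    exact ((Commute.refl e).zpow_left k).eq
  have hec : e * c⁻¹ = b * a⁻¹ * b⁻¹ := by
    rw [he]
    group
  rw [commutatorElement_def, commutatorElement_def, commutatorElement_def, commutatorElement_def]
  calc a * (E * b) * a⁻¹ * (E * b)⁻¹ *
        (E * c * E⁻¹ * (d * E⁻¹) * (E * c * E⁻¹)⁻¹ * (d * E⁻¹)⁻¹)
      = a * (E * (b * a⁻¹ * b⁻¹)) * E⁻¹ * (E * c * E⁻¹ * d * c⁻¹ * d⁻¹) := by group
    _ = a * (E * (e * c⁻¹)) * E⁻¹ * (E * c * E⁻¹ * d * c⁻¹ * d⁻¹) := by rw [hec]
    _ = a * (E * e) * E⁻¹ * d * c⁻¹ * d⁻¹ := by group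
    _ = a * (e * E) * E⁻¹ * d * c⁻¹ * d⁻¹ := by rw [hc]
    _ = a * e * d * c⁻¹ * d⁻¹ := by group
    _ = a * b * a⁻¹ * b⁻¹ * (c * d * c⁻¹ * d⁻¹) := by
        rw [he]
        group

theorem cp_act (m : Mv) (l : List (G × G)) : cp (act m l) = cp l := by
  induction m generalizing l with
  | ta k =>
    cases l with
    | nil => rfl
    | cons p l => simp only [act, cp, List.map_cons, List.prod_cons, comm_ta]
  | tb k =>
    cases l with
    | nil => rfl
    | cons p l => simp only [act, cp, List.map_cons, List.prod_cons, comm_tb]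
  | te k =>
    rcases l with _ | ⟨p, _ | ⟨q, l⟩⟩
    · rfl
    · rfl
    · simp only [act, cp, List.map_cons, List.prod_cons]
      rw [← mul_assoc, comm_te, mul_assoc]
  | sk m ih =>
    cases l with
    | nil => rfl
    | cons p l =>
      have := ih l
      simp only [act, cp, List.map_cons, List.prod_cons] at this ⊢
      rw [this]

theorem map_act (f : G →* H) (m : Mv) (l : List (G × G)) :
    (act m l).map (Prod.map f f) = act m (l.map (Prod.map f f)) := by
  induction m generalizing l with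
  | ta k =>
    cases l with
    | nil => rfl
    | cons p l => simp [act, Prod.map]
  | tb k =>
    cases l with
    | nil => rfl
    | cons p l => simp [act, Prod.map]
  | te k =>
    rcases l with _ | ⟨p, _ | ⟨q, l⟩⟩
    · rfl
    · rfl
    · simp [act, Prod.map]
  | sk m ih =>
    cases l with
    | nil => rfl
    | cons p l => simp [act, ih l]

theorem act_inv (m : Mv) (l : List (G × G)) : act m.inv (act m l) = l := by
  induction m generalizing l with
  | ta k =>
    cases l with
    | nil => rfl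
    | cons p l => simp [act, Mv.inv, mul_assoc]
  | tb k =>
    cases l with
    | nil => rfl
    | cons p l => simp [act, Mv.inv, mul_assoc]
  | te k =>
    rcases l with _ | ⟨p, _ | ⟨q, l⟩⟩
    · rfl
    · rfl
    · obtain ⟨a, b⟩ := p
      obtain ⟨c, d⟩ := q
      simp only [act, Mv.inv, neg_neg]
      obtain ⟨e, he⟩ : ∃ e, e = b * a⁻¹ * b⁻¹ * c := ⟨_, rfl⟩
      obtain ⟨E, hE⟩ : ∃ E, E = e ^ k := ⟨_, rfl⟩
      have h1 : e ^ (-k) = E⁻¹ := by rw [hE, zpow_neg]
      rw [← he, h1, ← hE]
      have hc : E * e = e * E := by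
        rw [hE]
        exact ((Commute.refl e).zpow_left k).eq
      have h2 : E * b * a⁻¹ * (E * b)⁻¹ * (E * c * E⁻¹) = e := by
        calc E * b * a⁻¹ * (E * b)⁻¹ * (E * c * E⁻¹) = E * (b * a⁻¹ * b⁻¹ * c) * E⁻¹ := by group
          _ = E * e * E⁻¹ := by rw [← he]
          _ = e := by rw [hc, mul_assoc, mul_inv_cancel, mul_one]
      rw [h2, h1, ← hE]
      simp [mul_assoc]
  | sk m ih =>
    cases l with
    | nil => rfl
    | cons p l => simp [act, Mv.inv, ih l]

theorem Mv.inv_inv (m : Mv) : m.inv.inv = m := by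
  induction m with
  | ta k => simp [Mv.inv]
  | tb k => simp [Mv.inv]
  | te k => simp [Mv.inv]
  | sk m ih => simp [Mv.inv, ih]

theorem act_inv' (m : Mv) (l : List (G × G)) : act m (act m.inv l) = l := by
  have := act_inv m.inv l
  rwa [Mv.inv_inv] at this

theorem act_length (m : Mv) (l : List (G × G)) : (act m l).length = l.length := by
  induction m generalizing l with
  | ta k => cases l <;> rfl
  | tb k => cases l <;> rfl
  | te k => rcases l with _ | ⟨p, _ | ⟨q, l⟩⟩ <;> rfl
  | sk m ih =>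
    cases l with
    | nil => rfl
    | cons p l => simp [act, ih l]

theorem cp_acts (ms : List Mv) (l : List (G × G)) : cp (acts ms l) = cp l := by
  induction ms with
  | nil => rfl
  | cons m ms ih => exact (cp_act m _).trans ih

theorem map_acts (f : G →* H) (ms : List Mv) (l : List (G × G)) :
    (acts ms l).map (Prod.map f f) = acts ms (l.map (Prod.map f f)) := by
  induction ms with
  | nil => rfl
  | cons m ms ih =>
    show (act m (acts ms l)).map _ = act m (acts ms _)
    rw [map_act, ih]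

theorem acts_length (ms : List Mv) (l : List (G × G)) : (acts ms l).length = l.length := by
  induction ms with
  | nil => rfl
  | cons m ms ih => exact (act_length m _).trans ih

theorem acts_append (ms ms' : List Mv) (l : List (G × G)) :
    acts (ms ++ ms') l = acts ms (acts ms' l) := by
  unfold acts
  rw [List.foldr_append]

/-- the inverse list of moves -/
def invs (ms : List Mv) : List Mv := (ms.map Mv.inv).reverse

theorem acts_invs (ms : List Mv) (l : List (G × G)) : acts (invs ms) (acts ms l) = l := by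
  induction ms with
  | nil => rfl
  | cons m ms ih =>
    have : invs (m :: ms) = invs ms ++ [m.inv] := by simp [invs]
    rw [this, acts_append]
    show acts (invs ms) (act m.inv (act m (acts ms l))) = l
    rw [act_inv, ih]

theorem acts_invs' (ms : List Mv) (l : List (G × G)) : acts ms (acts (invs ms) l) = l := by
  induction ms generalizing l with
  | nil => rfl
  | cons m ms ih =>
    have : invs (m :: ms) = invs ms ++ [m.inv] := by simp [invs]
    rw [this, acts_append]
    show act m (acts ms (acts (invs ms) (act m.inv l))) = l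
    rw [ih, act_inv']

theorem acts_sk (ms : List Mv) (p : G × G) (l : List (G × G)) :
    acts (ms.map Mv.sk) (p :: l) = p :: acts ms l := by
  induction ms with
  | nil => rfl
  | cons m ms ih =>
    show act (Mv.sk m) (acts (ms.map Mv.sk) (p :: l)) = p :: act m (acts ms l)
    rw [ih]
    rfl

end Pool.Agent.Helper78.SLC
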