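import Pool.Agent.Helper78.SLC.Moves

set_option autoImplicit false

/-!
Reduction by moves: one cyclic quotient costs one handle.
-/

open scoped commutatorElement

namespace Pool.Agent.Helper78.SLC

/-- a pair of integers as a pair of elements of the multiplicative version -/
def em (p : ℤ × ℤ) : Multiplicative ℤ × Multiplicative ℤ :=
  (Multiplicative.ofAdd p.1, Multiplicative.ofAdd p.2)

private def R1 (p p' : ℤ × ℤ) : Prop :=
  ∃ ms : List Mv, ∀ t : List (Multiplicative ℤ × Multiplicative ℤ),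
    acts ms (em p :: t) = em p' :: t

private def R2 (p q p' q' : ℤ × ℤ) : Prop :=
  ∃ ms : List Mv, ∀ t : List (Multiplicative ℤ × Multiplicative ℤ),
    acts ms (em p :: em q :: t) = em p' :: em q' :: t

private theorem r1_refl (p : ℤ × ℤ) : R1 p p := ⟨[], fun _ => rfl⟩

private theorem r2_refl (p q : ℤ × ℤ) : R2 p q p q := ⟨[], fun _ => rfl⟩

private theorem r1_trans {p q r : ℤ × ℤ} (h : R1 p q) (h' : R1 q r) : R1 p r := by
  obtain ⟨ms, h⟩ := h
  obtain ⟨ms', h'⟩ := h'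
  exact ⟨ms' ++ ms, fun t => by rw [acts_append, h, h']⟩

private theorem r2_trans {p q p' q' p'' q'' : ℤ × ℤ} (h : R2 p q p' q')
    (h' : R2 p' q' p'' q'') : R2 p q p'' q'' := by
  obtain ⟨ms, h⟩ := h
  obtain ⟨ms', h'⟩ := h'
  exact ⟨ms' ++ ms, fun t => by rw [acts_append, h, h']⟩

private theorem r2_left {p p' : ℤ × ℤ} (q : ℤ × ℤ) (h : R1 p p') : R2 p q p' q := by
  obtain ⟨ms, h⟩ := h
  exact ⟨ms, fun t => h _⟩

private theorem r2_right (p : ℤ × ℤ) {q q' : ℤ × ℤ} (h : R1 q q') : R2 p q p q' := by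
  obtain ⟨ms, h⟩ := h
  exact ⟨ms.map Mv.sk, fun t => by rw [acts_sk, h]⟩

private theorem of_zpow (a k : ℤ) :
    (Multiplicative.ofAdd a) ^ k = Multiplicative.ofAdd (k * a) := by
  rw [← ofAdd_zsmul, smul_eq_mul]

private theorem r1_ta (a b k : ℤ) : R1 (a, b) (a + k * b, b) := by
  refine ⟨[.ta k], fun t => ?_⟩
  have h : (Multiplicative.ofAdd a) * (Multiplicative.ofAdd b) ^ k =
      Multiplicative.ofAdd (a + k * b) := by rw [of_zpow, ← ofAdd_add]
  show ((Multiplicative.ofAdd a) * (Multiplicative.ofAdd b) ^ k, _) :: _ = _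
  rw [h]
  rfl

private theorem r1_tb (a b k : ℤ) : R1 (a, b) (a, b + k * a) := by
  refine ⟨[.tb k], fun t => ?_⟩
  have h : (Multiplicative.ofAdd b) * (Multiplicative.ofAdd a) ^ k =
      Multiplicative.ofAdd (b + k * a) := by rw [of_zpow, ← ofAdd_add]
  show (_, (Multiplicative.ofAdd b) * (Multiplicative.ofAdd a) ^ k) :: _ = _
  rw [h]
  rfl

private theorem r2_te (a b c d k : ℤ) :
    R2 (a, b) (c, d) (a, b + k * (c - a)) (c, d - k * (c - a)) := by
  refine ⟨[.te k], fun t => ?_⟩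
  have he : (Multiplicative.ofAdd b) * (Multiplicative.ofAdd a)⁻¹ * (Multiplicative.ofAdd b)⁻¹ *
      (Multiplicative.ofAdd c) = Multiplicative.ofAdd (c - a) := by
    rw [← ofAdd_neg, ← ofAdd_neg, ← ofAdd_add, ← ofAdd_add, ← ofAdd_add]
    congr 1
    ring
  show (_ :: _ :: _) = (_ :: _ :: _)
  congr 1
  · show (_, ((Multiplicative.ofAdd b) * (Multiplicative.ofAdd a)⁻¹ *
      (Multiplicative.ofAdd b)⁻¹ * (Multiplicative.ofAdd c)) ^ k * (Multiplicative.ofAdd b)) =
      (_, _)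
    rw [he, of_zpow, ← ofAdd_add, add_comm]
    rfl
  · congr 1
    show (((Multiplicative.ofAdd b) * (Multiplicative.ofAdd a)⁻¹ *
      (Multiplicative.ofAdd b)⁻¹ * (Multiplicative.ofAdd c)) ^ k * (Multiplicative.ofAdd c) *
      ((Multiplicative.ofAdd b) * (Multiplicative.ofAdd a)⁻¹ *
      (Multiplicative.ofAdd b)⁻¹ * (Multiplicative.ofAdd c)) ^ (-k), (Multiplicative.ofAdd d) *
      ((Multiplicative.ofAdd b) * (Multiplicative.ofAdd a)⁻¹ *
      (Multiplicative.ofAdd b)⁻¹ * (Multiplicative.ofAdd c)) ^ (-k)) = (_, _)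
    rw [he, of_zpow, of_zpow, ← ofAdd_add, ← ofAdd_add, ← ofAdd_add]
    have h1 : k * (c - a) + c + -k * (c - a) = c := by ring
    have h2 : d + -k * (c - a) = d - k * (c - a) := by ring
    rw [h1, h2]

private theorem r1_S (x y : ℤ) : R1 (x, y) (-y, x) := by
  have h1 := r1_ta x y (-1)
  have h2 := r1_tb (x + -1 * y) y 1
  have h3 := r1_ta (x + -1 * y) (y + 1 * (x + -1 * y)) (-1)
  have h4 := r1_trans h1 (r1_trans h2 h3)
  have e1 : x + -1 * y + -1 * (y + 1 * (x + -1 * y)) = -y := by ring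
  have e2 : y + 1 * (x + -1 * y) = x := by ring
  rwa [e1, e2] at h4

private theorem r1_S' (x y : ℤ) : R1 (x, y) (y, -x) := by
  have h := r1_trans (r1_S x y) (r1_trans (r1_S (-y) x) (r1_S (-x) (-y)))
  rwa [neg_neg] at h

private theorem r1_zero (a b : ℤ) : ∃ m : ℤ, R1 (a, b) (0, m) := by
  induction h : a.natAbs using Nat.strong_induction_on generalizing a b with
  | _ n ih =>
    by_cases ha : a = 0
    · exact ⟨b, by rw [ha]; exact r1_refl _⟩
    · have h1 := r1_tb a b (-(b / a))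
      have e1 : b + -(b / a) * a = b % a := by
        have := Int.emod_add_mul_ediv b a
        linarith [mul_comm a (b / a)]
      rw [e1] at h1
      have h2 := r1_trans h1 (r1_S a (b % a))
      have hlt : (-(b % a)).natAbs < n := by
        rw [← h, Int.natAbs_neg]
        have h3 := Int.emod_nonneg b ha
        have h4 := Int.emod_lt_abs b ha
        rw [Int.abs_eq_natAbs] at h4
        omega
      obtain ⟨m, hm⟩ := ih _ hlt (-(b % a)) a rfl
      exact ⟨m, r1_trans h2 hm⟩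

private theorem tyA (m n k : ℤ) : R2 (0, m) (n, 0) (0, m + k * n) (n, 0) := by
  have h1 := r2_te 0 m n 0 k
  have h2 := r2_right (0, m + k * (n - 0)) (r1_tb n (0 - k * (n - 0)) k)
  have h3 := r2_trans h1 h2
  have e1 : 0 - k * (n - 0) + k * n = 0 := by ring
  rwa [e1, sub_zero] at h3

private theorem tyB (m n k : ℤ) : R2 (0, m) (n, 0) (0, m) (-(n + k * m), 0) := by
  have h1 := r2_left (n, 0) (r1_S' 0 m)
  rw [neg_zero] at h1
  have h2 := r2_right (m, 0) (r1_S n 0)
  rw [neg_zero] at h2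
  have h3 := r2_te m 0 0 n k
  have h4 := r2_left (0, n - k * (0 - m)) (r1_tb m (0 + k * (0 - m)) k)
  have e1 : 0 + k * (0 - m) + k * m = 0 := by ring
  rw [e1] at h4
  have h5 := r2_left (0, n - k * (0 - m)) (r1_S m 0)
  rw [neg_zero] at h5
  have h6 := r2_right (0, m) (r1_S 0 (n - k * (0 - m)))
  have e2 : n - k * (0 - m) = n + k * m := by ring
  rw [e2] at h3 h4 h5 h6
  exact r2_trans h1 (r2_trans h2 (r2_trans h3 (r2_trans h4 (r2_trans h5 h6))))

private theorem pr (m n : ℤ) : ∃ x : ℤ × ℤ, R2 (0, m) (n, 0) x (0, 0) := by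
  induction h : n.natAbs using Nat.strong_induction_on generalizing m n with
  | _ N ih =>
    by_cases hn : n = 0
    · exact ⟨(0, m), by rw [hn]; exact r2_refl _ _⟩
    · have h1 := tyA m n (-(m / n))
      have e1 : m + -(m / n) * n = m % n := by
        have := Int.emod_add_mul_ediv m n
        linarith [mul_comm n (m / n)]
      rw [e1] at h1
      by_cases hm : m % n = 0
      · rw [hm] at h1
        have h2 := tyA 0 n 1
        have h3 := tyB (0 + 1 * n) n (-1)
        have e2 : -(n + -1 * (0 + 1 * n)) = 0 := by ring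
        rw [e2] at h3
        exact ⟨_, r2_trans h1 (r2_trans h2 h3)⟩
      · have h2 := tyB (m % n) n (-(n / (m % n)))
        have e2 : n + -(n / (m % n)) * (m % n) = n % (m % n) := by
          have := Int.emod_add_mul_ediv n (m % n)
          linarith [mul_comm (m % n) (n / (m % n))]
        rw [e2] at h2
        have hlt : (-(n % (m % n))).natAbs < N := by
          rw [← h, Int.natAbs_neg]
          have h3 := Int.emod_nonneg n hm
          have h4 := Int.emod_lt_abs n hm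
          have h5 := Int.emod_nonneg m hn
          have h6 := Int.emod_lt_abs m hn
          rw [abs_of_nonneg h5] at h4
          rw [Int.abs_eq_natAbs] at h6
          omega
        obtain ⟨x, hx⟩ := ih _ hlt (m % n) (-(n % (m % n))) rfl
        exact ⟨x, r2_trans h1 (r2_trans h2 hx)⟩

private theorem pr_all (p q : ℤ × ℤ) : ∃ x : ℤ × ℤ, R2 p q x (0, 0) := by
  obtain ⟨a, b⟩ := p
  obtain ⟨c, d⟩ := q
  obtain ⟨m, hm⟩ := r1_zero a b
  obtain ⟨n, hn⟩ := r1_zero c d
  have h1 := r1_trans hn (r1_S' 0 n)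
  rw [neg_zero] at h1
  obtain ⟨x, hx⟩ := pr m n
  exact ⟨x, r2_trans (r2_left _ hm) (r2_trans (r2_right _ h1) hx)⟩

theorem em_surj (p : Multiplicative ℤ × Multiplicative ℤ) : ∃ q, em q = p :=
  ⟨(Multiplicative.toAdd p.1, Multiplicative.toAdd p.2), rfl⟩

/-- integers: all handles but one can be made trivial -/
theorem red_int (l : List (ℤ × ℤ)) :
    ∃ ms : List Mv, ∀ p ∈ (acts ms (l.map em)).tail, p = 1 := by
  induction l with
  | nil => exact ⟨[], fun p hp => by simp [acts] at hp⟩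
  | cons p l ih =>
    cases l with
    | nil => exact ⟨[], fun p hp => by simp [acts] at hp⟩
    | cons q l =>
      obtain ⟨ms, hms⟩ := ih
      have hlen := acts_length ms ((q :: l).map em)
      rcases hL : acts ms ((q :: l).map em) with _ | ⟨q', t⟩
      · rw [hL] at hlen
        simp at hlen
      · rw [hL] at hms
        obtain ⟨q'', rfl⟩ := em_surj q'
        obtain ⟨x, ms2, h2⟩ := pr_all p q''
        refine ⟨ms2 ++ ms.map Mv.sk, ?_⟩
        rw [acts_append, List.map_cons, acts_sk, hL, h2]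
        intro z hz
        rw [List.tail_cons, List.mem_cons] at hz
        rcases hz with rfl | hz
        · rfl
        · exact hms z hz

private theorem lift_list {A B : Type*} (f : A → B) (l : List B) (h : ∀ x ∈ l, ∃ y, f y = x) :
    ∃ l' : List A, l'.map f = l := by
  induction l with
  | nil => exact ⟨[], rfl⟩
  | cons x l ih =>
    obtain ⟨l', hl'⟩ := ih fun z hz => h z (List.mem_cons_of_mem _ hz)
    obtain ⟨y, hy⟩ := h x List.mem_cons_self
    exact ⟨y :: l', by rw [List.map_cons, hy, hl']⟩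

/-- one cyclic quotient -/
theorem red_step {G : Type*} [Group G] (N N' : Subgroup G) (s : G) (hs : s ∈ N)
    (hn : ∀ x ∈ N, ∀ y ∈ N', x * y * x⁻¹ ∈ N') (hc : ∀ x ∈ N, ∃ k : ℤ, (s ^ k)⁻¹ * x ∈ N')
    (l : List (G × G)) (hl : ∀ p ∈ l, p.1 ∈ N ∧ p.2 ∈ N) :
    ∃ ms : List Mv, ∀ p ∈ (acts ms l).tail, p.1 ∈ N' ∧ p.2 ∈ N' := by
  have hnor : (N'.subgroupOf N).Normal := ⟨fun y hy x => by
    rw [Subgroup.mem_subgroupOf] at hy ⊢
    exact hn x x.2 y hy⟩
  obtain ⟨l', hl'⟩ := lift_list (Prod.map N.subtype N.subtype) l fun p hp =>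
    ⟨(⟨p.1, (hl p hp).1⟩, ⟨p.2, (hl p hp).2⟩), rfl⟩
  obtain ⟨q, hq⟩ : ∃ q : N →* N ⧸ (N'.subgroupOf N), q = QuotientGroup.mk' _ := ⟨_, rfl⟩
  obtain ⟨ρ, hρ⟩ : ∃ ρ : Multiplicative ℤ →* N ⧸ (N'.subgroupOf N),
      ∀ k : ℤ, ρ (Multiplicative.ofAdd k) = q ⟨s, hs⟩ ^ k :=
    ⟨zpowersHom _ (q ⟨s, hs⟩), fun k => rfl⟩
  have hex : ∀ x : N, ∃ k : ℤ, ρ (Multiplicative.ofAdd k) = q x := by
    intro x
    obtain ⟨k, hk⟩ := hc x x.2
    refine ⟨k, ?_⟩
    rw [hρ, ← map_zpow, hq]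
    show ((⟨s, hs⟩ ^ k : N) : N ⧸ (N'.subgroupOf N)) = ((x : N) : N ⧸ (N'.subgroupOf N))
    rw [QuotientGroup.eq, Subgroup.mem_subgroupOf]
    exact hk
  obtain ⟨kl, hkl⟩ := lift_list (fun p : ℤ × ℤ => Prod.map ρ ρ (em p))
    (l'.map (Prod.map q q)) (fun p hp => by
      obtain ⟨z, _, rfl⟩ := List.mem_map.1 hp
      obtain ⟨k1, h1⟩ := hex z.1
      obtain ⟨k2, h2⟩ := hex z.2
      exact ⟨(k1, k2), Prod.ext h1 h2⟩)
  obtain ⟨ms, hms⟩ := red_int kl
  refine ⟨ms, fun p hp => ?_⟩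
  have hkl' : (kl.map em).map (Prod.map ρ ρ) = l'.map (Prod.map q q) := by
    rw [List.map_map]
    exact hkl
  have h1 : (acts ms l').map (Prod.map q q) = (acts ms (kl.map em)).map (Prod.map ρ ρ) := by
    rw [map_acts, map_acts, hkl']
  rw [← hl', ← map_acts, ← List.map_tail] at hp
  obtain ⟨z, hz, rfl⟩ := List.mem_map.1 hp
  have h2 : Prod.map q q z ∈ ((acts ms l').map (Prod.map q q)).tail := by
    rw [← List.map_tail]
    exact List.mem_map_of_mem hz
  rw [h1, ← List.map_tail] at h2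
  obtain ⟨w, hw, hwz⟩ := List.mem_map.1 h2
  rw [hms w hw] at hwz
  have h3 : q z.1 = 1 := by
    have := congrArg Prod.fst hwz
    simpa using this.symm
  have h4 : q z.2 = 1 := by
    have := congrArg Prod.snd hwz
    simpa using this.symm
  rw [hq, QuotientGroup.mk'_apply, QuotientGroup.eq_one_iff, Subgroup.mem_subgroupOf] at h3 h4
  exact ⟨h3, h4⟩

/-- a chain of cyclic quotients -/
theorem red_chain {G : Type*} [Group G] (n : ℕ) (N : ℕ → Subgroup G)
    (hn : ∀ i < n, ∀ x ∈ N i, ∀ y ∈ N (i + 1), x * y * x⁻¹ ∈ N (i + 1))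
    (hc : ∀ i < n, ∃ s ∈ N i, ∀ x ∈ N i, ∃ k : ℤ, (s ^ k)⁻¹ * x ∈ N (i + 1))
    (l : List (G × G)) (hl : ∀ p ∈ l, p.1 ∈ N 0 ∧ p.2 ∈ N 0) :
    ∃ ms : List Mv, ∀ p ∈ (acts ms l).drop n, p.1 ∈ N n ∧ p.2 ∈ N n := by
  induction n generalizing N l with
  | zero => exact ⟨[], fun p hp => hl p hp⟩
  | succ n ih =>
    obtain ⟨s, hs, hc0⟩ := hc 0 (Nat.succ_pos n)
    obtain ⟨ms, hms⟩ := red_step (N 0) (N 1) s hs (hn 0 (Nat.succ_pos n)) hc0 l hl
    rcases hL : acts ms l with _ | ⟨h, t⟩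
    · exact ⟨ms, fun p hp => by simp [hL] at hp⟩
    · rw [hL, List.tail_cons] at hms
      obtain ⟨ms', hms'⟩ := ih (fun i => N (i + 1)) (fun i hi => hn (i + 1) (by omega))
        (fun i hi => hc (i + 1) (by omega)) t hms
      refine ⟨ms'.map Mv.sk ++ ms, ?_⟩
      rw [acts_append, hL, acts_sk, List.drop_succ_cons]
      exact hms'

end Pool.Agent.Helper78.SLC
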