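import Pool.Agent.Helper78.SLC.Isot

set_option autoImplicit false

/-!
The negative half: a torsion-free metabelian group, extension of `ℤ^g` by an abelian group.
-/

open scoped commutatorElement

namespace Pool.Agent.Helper78.SLC

/-- the affine maps `t ↦ 2^e t + m` -/
@[ext]
structure Af where
  m : ℚ
  e : ℤ

namespace Af

instance : Mul Af := ⟨fun p q => ⟨p.m + 2 ^ p.e * q.m, p.e + q.e⟩⟩

instance : One Af := ⟨⟨0, 0⟩⟩

instance : Inv Af := ⟨fun p => ⟨-(2 ^ (-p.e) * p.m), -p.e⟩⟩

theorem mul_m (p q : Af) : (p * q).m = p.m + 2 ^ p.e * q.m := rfl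
theorem mul_e (p q : Af) : (p * q).e = p.e + q.e := rfl
theorem one_m : (1 : Af).m = 0 := rfl
theorem one_e : (1 : Af).e = 0 := rfl
theorem inv_m (p : Af) : (p⁻¹).m = -(2 ^ (-p.e) * p.m) := rfl
theorem inv_e (p : Af) : (p⁻¹).e = -p.e := rfl

instance : Group Af := Group.ofLeftAxioms
  (fun p q r => by
    ext
    · simp only [mul_m, mul_e]
      rw [zpow_add₀ two_ne_zero]
      ring
    · simp only [mul_e]
      ring)
  (fun p => by
    ext
    · simp only [mul_m, one_m, one_e, zpow_zero]
      ring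
    · simp only [mul_e, one_e]
      ring)
  (fun p => by
    ext
    · simp only [mul_m, inv_m, inv_e, one_m]
      ring
    · simp only [mul_e, inv_e, one_e]
      ring)

/-- the linear part -/
def pe : Af →* Multiplicative ℤ where
  toFun p := Multiplicative.ofAdd p.e
  map_one' := rfl
  map_mul' _ _ := rfl

theorem comm (p q : Af) : ⁅p, q⁆ = ⟨(1 - 2 ^ q.e) * p.m - (1 - 2 ^ p.e) * q.m, 0⟩ := by
  rw [commutatorElement_def]
  ext
  · simp only [mul_m, mul_e, inv_m, inv_e]
    have h1 : (2 : ℚ) ^ (p.e + q.e) = 2 ^ p.e * 2 ^ q.e := zpow_add₀ two_ne_zero _ _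
    have h2 : (2 : ℚ) ^ (p.e + q.e + -p.e) = 2 ^ q.e := by
      congr 1
      ring
    have h3 : (2 : ℚ) ^ p.e * 2 ^ (-p.e) = 1 := by
      rw [← zpow_add₀ two_ne_zero, add_neg_cancel, zpow_zero]
    have h4 : (2 : ℚ) ^ q.e * 2 ^ (-q.e) = 1 := by
      rw [← zpow_add₀ two_ne_zero, add_neg_cancel, zpow_zero]
    rw [h1, h2]
    linear_combination (-(2 ^ q.e * p.m)) * h3 - q.m * h4
  · simp only [mul_e, inv_e]
    ring

theorem cp_eq (l : List (Af × Af)) :
    cp l = ⟨(l.map fun p => (1 - 2 ^ p.2.e) * p.1.m - (1 - 2 ^ p.1.e) * p.2.m).sum, 0⟩ := by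
  induction l with
  | nil => rfl
  | cons p l ih =>
    have h : cp (p :: l) = ⁅p.1, p.2⁆ * cp l := rfl
    rw [h, ih, comm]
    ext
    · simp only [mul_m, zpow_zero, one_mul, List.map_cons, List.sum_cons]
    · simp only [mul_e]
      ring

theorem pow_e (p : Af) (n : ℕ) : (p ^ n).e = n * p.e := by
  induction n with
  | zero => simp [one_e]
  | succ n ih =>
    rw [pow_succ, mul_e, ih]
    push_cast
    ring

theorem pow_m (p : Af) (h : p.e = 0) (n : ℕ) : (p ^ n).m = n * p.m := by
  induction n with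
  | zero => simp [one_m]
  | succ n ih =>
    rw [pow_succ, mul_m, ih, pow_e, h, mul_zero, zpow_zero]
    push_cast
    ring

theorem torsion_free (p : Af) (n : ℕ) (hn : 0 < n) (h : p ^ n = 1) : p = 1 := by
  have h1 : (n : ℤ) * p.e = 0 := by rw [← pow_e, h, one_e]
  have h2 : p.e = 0 := by
    rcases mul_eq_zero.1 h1 with h3 | h3
    · omega
    · exact h3
  have h3 : (n : ℚ) * p.m = 0 := by rw [← pow_m p h2, h, one_m]
  have h4 : p.m = 0 := by
    rcases mul_eq_zero.1 h3 with h5 | h5
    · have : (n : ℚ) ≠ 0 := by exact_mod_cast hn.ne'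
      exact absurd h5 this
    · exact h5
  ext
  · rw [h4, one_m]
  · rw [h2, one_e]

theorem comm_of (p q : Af) (hp : p.e = 0) (hq : q.e = 0) : p * q = q * p := by
  ext
  · rw [mul_m, mul_m, hp, hq, zpow_zero]
    ring
  · rw [mul_e, mul_e, hp, hq]

end Af

private theorem two_zpow_ne {e : ℤ} (he : e ≠ 0) : (1 : ℚ) - 2 ^ e ≠ 0 := by
  intro h
  have h1 : (2 : ℚ) ^ e = 1 := by linarith
  rcases lt_or_gt_of_ne he with h2 | h2
  · have := zpow_lt_one_of_neg₀ (a := (2 : ℚ)) (by norm_num) h2
    linarith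
  · have := one_lt_zpow₀ (a := (2 : ℚ)) (by norm_num) h2
    linarith

private theorem solve (A B : ℤ) (h : A ≠ 0 ∨ B ≠ 0) (c : ℚ) :
    ∃ m n : ℚ, (1 - 2 ^ B) * m - (1 - 2 ^ A) * n = c := by
  rcases h with h | h
  · refine ⟨0, -c / (1 - 2 ^ A), ?_⟩
    have := two_zpow_ne h
    field_simp
    ring
  · refine ⟨c / (1 - 2 ^ B), 0, ?_⟩
    have := two_zpow_ne h
    field_simp
    ring

theorem two_vec {h : ℕ} (v w : Fin h → ℤ) (hv : v ≠ 0) (hw : w ≠ 0) :
    ∃ θ : (Fin h → ℤ) →+ ℤ, θ v ≠ 0 ∧ θ w ≠ 0 := by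
  obtain ⟨c, hc⟩ := Function.ne_iff.1 hv
  obtain ⟨d, hd⟩ := Function.ne_iff.1 hw
  by_cases h1 : v d = 0
  · by_cases h2 : w c = 0
    · refine ⟨Pi.evalAddMonoidHom (fun _ => ℤ) c + Pi.evalAddMonoidHom (fun _ => ℤ) d, ?_, ?_⟩
      · show v c + v d ≠ 0
        rw [h1, add_zero]
        exact hc
      · show w c + w d ≠ 0
        rw [h2, zero_add]
        exact hd
    · exact ⟨Pi.evalAddMonoidHom (fun _ => ℤ) c, hc, h2⟩
  · exact ⟨Pi.evalAddMonoidHom (fun _ => ℤ) d, h1, hd⟩

private theorem mem_take {g k : ℕ} (i : Fin g) : i ∈ (List.finRange g).take k ↔ (i : ℕ) < k := by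
  constructor
  · intro h
    obtain ⟨n, hn, rfl⟩ := List.mem_iff_getElem.1 h
    rw [List.getElem_take, List.getElem_finRange]
    rw [List.length_take] at hn
    show n < k
    omega
  · intro h
    have h1 : (i : ℕ) < ((List.finRange g).take k).length := by
      rw [List.length_take, List.length_finRange]
      have := i.2
      omega
    have h2 : ((List.finRange g).take k)[(i : ℕ)] = i := by
      rw [List.getElem_take, List.getElem_finRange]
      rfl
    rw [← h2]
    exact List.getElem_mem h1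

private theorem sum_take {g k : ℕ} (t : Fin g → ℚ) :
    (((List.finRange g).take k).map t).sum = ∑ i : Fin g, if (i : ℕ) < k then t i else 0 := by
  have hn : ((List.finRange g).take k).Nodup :=
    (List.nodup_finRange g).sublist (List.take_sublist _ _)
  rw [← List.sum_toFinset t hn, ← Finset.sum_filter]
  refine Finset.sum_congr ?_ fun _ _ => rfl
  ext i
  rw [List.mem_toFinset, mem_take, Finset.mem_filter]
  exact ⟨fun h => ⟨Finset.mem_univ _, h⟩, fun h => h.2⟩

/-- detection of a separating curve by an affine representation -/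
theorem detect {g k : ℕ} (Θ : SG g →* Multiplicative ℤ) (i j : Fin g) (hi : (i : ℕ) < k)
    (hj : k ≤ (j : ℕ)) (h1 : Θ (ga i) ≠ 1 ∨ Θ (gb i) ≠ 1) (h2 : Θ (ga j) ≠ 1 ∨ Θ (gb j) ≠ 1) :
    ∃ F : SG g →* Af, Af.pe.comp F = Θ ∧ F (sep g k) ≠ 1 := by
  have hij : i ≠ j := fun h => by
    rw [h] at hi
    omega
  have hcon : ∀ z : SG g, Θ z ≠ 1 → Multiplicative.toAdd (Θ z) ≠ 0 := fun z hz h => hz h
  obtain ⟨m1, n1, hs1⟩ := solve (Multiplicative.toAdd (Θ (ga i)))
    (Multiplicative.toAdd (Θ (gb i))) (h1.imp (hcon _) (hcon _)) 1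
  obtain ⟨m2, n2, hs2⟩ := solve (Multiplicative.toAdd (Θ (ga j)))
    (Multiplicative.toAdd (Θ (gb j))) (h2.imp (hcon _) (hcon _)) (-1)
  obtain ⟨P, hP⟩ : ∃ P : Fin g → Af × Af, P = fun l =>
      ((⟨if l = i then m1 else if l = j then m2 else 0, Multiplicative.toAdd (Θ (ga l))⟩ : Af),
        (⟨if l = i then n1 else if l = j then n2 else 0, Multiplicative.toAdd (Θ (gb l))⟩ : Af)) :=
    ⟨_, rfl⟩
  have hterm : ∀ l, (1 - (2 : ℚ) ^ (P l).2.e) * (P l).1.m - (1 - 2 ^ (P l).1.e) * (P l).2.m =
      if l = i then 1 else if l = j then -1 else 0 := by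
    intro l
    rw [hP]
    by_cases hli : l = i
    · simp only [hli, if_true]
      exact hs1
    · by_cases hlj : l = j
      · simp only [hlj, if_neg hij.symm, if_true]
        exact hs2
      · simp only [if_neg hli, if_neg hlj]
        ring
  have hsum : ∀ k' : ℕ, cp (((List.finRange g).take k').map P) =
      ⟨∑ l : Fin g, if (l : ℕ) < k' then (if l = i then 1 else if l = j then -1 else 0) else 0,
        0⟩ := by
    intro k'
    rw [Af.cp_eq, List.map_map]
    congr 1
    rw [← sum_take]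
    congr 1
    refine List.map_congr_left fun l _ => ?_
    exact hterm l
  have hval : ∀ k' : ℕ, (i : ℕ) < k' →
      (∑ l : Fin g, if (l : ℕ) < k' then (if l = i then (1 : ℚ) else if l = j then -1 else 0)
        else 0) = 1 + if (j : ℕ) < k' then -1 else 0 := by
    intro k' hk'
    have e : ∀ l : Fin g, (if (l : ℕ) < k' then (if l = i then (1 : ℚ) else if l = j then -1
        else 0) else 0) = (if l = i then 1 else 0) +
        (if l = j then (if (j : ℕ) < k' then (-1 : ℚ) else 0) else 0) := by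
      intro l
      by_cases hli : l = i
      · rw [hli, if_pos hk', if_pos rfl, if_pos rfl, if_neg hij, add_zero]
      · by_cases hlj : l = j
        · rw [hlj, if_neg hij.symm, if_pos rfl, if_neg hij.symm, if_pos rfl, zero_add]
        · rw [if_neg hli, if_neg hlj, if_neg hli, if_neg hlj, ite_self, add_zero]
    rw [Finset.sum_congr rfl fun l _ => e l, Finset.sum_add_distrib, Finset.sum_ite_eq',
      Finset.sum_ite_eq', if_pos (Finset.mem_univ _), if_pos (Finset.mem_univ _)]
  have htot : cp ((List.finRange g).map P) = 1 := by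
    have h3 := hsum g
    rw [List.take_of_length_le (by rw [List.length_finRange])] at h3
    rw [h3, hval g i.2, if_pos j.2]
    ext
    · show (1 : ℚ) + -1 = 0
      norm_num
    · rfl
  obtain ⟨F, hF⟩ := exists_hom (g := g) ((List.finRange g).map P) (by simp) htot
  have hF' := hF
  unfold st at hF'
  rw [List.map_map] at hF'
  have h := fun l => List.map_eq_map_iff.1 hF' l (List.mem_finRange l)
  refine ⟨F, ?_, ?_⟩
  · refine PresentedGroup.ext fun x => ?_
    obtain ⟨l, b⟩ := x
    cases b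
    · show Multiplicative.ofAdd (F (gb l)).e = Θ (gb l)
      have : F (gb l) = (P l).2 := congrArg Prod.snd (h l)
      rw [this, hP]
      rfl
    · show Multiplicative.ofAdd (F (ga l)).e = Θ (ga l)
      have : F (ga l) = (P l).1 := congrArg Prod.fst (h l)
      rw [this, hP]
      rfl
  · intro hc
    rw [← cp_take, ← cp_map, List.map_take, hF, ← List.map_take, hsum k, hval k hi,
      if_neg (by omega)] at hc
    have := congrArg Af.m hc
    rw [Af.one_m] at this
    norm_num at this

end Pool.Agent.Helper78.SLC
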