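import Pool.Agent.Helper78.SLC.Reduce
import Pool.Agent.Helper78.SLC.Defs

set_option autoImplicit false

/-!
Homomorphisms of surface groups given by lists of pairs, automorphisms given by moves, and the
positive half.
-/

open scoped commutatorElement

namespace Pool.Agent.Helper78.SLC

variable {G H : Type*} [Group G] [Group H]

/-- the standard list of pairs of generators -/
def st (g : ℕ) : List (SG g × SG g) := (List.finRange g).map fun i => (ga i, gb i)

theorem st_length (g : ℕ) : (st g).length = g := by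
  unfold st
  rw [List.length_map, List.length_finRange]

theorem cp_take (g k : ℕ) : cp ((st g).take k) = sep g k := by
  unfold cp st sep
  rw [← List.map_take, List.map_map]
  rfl

theorem lift_rel (g : ℕ) (f : Fin g × Bool → G) :
    FreeGroup.lift f (rel g) = cp ((List.finRange g).map fun i => (f (i, true), f (i, false))) := by
  unfold rel cp
  rw [map_list_prod, List.map_map, List.map_map]
  congr 1
  refine List.map_congr_left fun i _ => ?_
  show FreeGroup.lift f ⁅FreeGroup.of (i, true), FreeGroup.of (i, false)⁆ =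
    ⁅f (i, true), f (i, false)⁆
  rw [map_commutatorElement, FreeGroup.lift_apply_of, FreeGroup.lift_apply_of]

private def gf (τ : List (G × G)) {g : ℕ} (h : τ.length = g) (x : Fin g × Bool) : G :=
  bif x.2 then (τ[(x.1 : ℕ)]'(by rw [h]; exact x.1.2)).1 else (τ[(x.1 : ℕ)]'(by rw [h]; exact x.1.2)).2

omit [Group G] in
private theorem gf_map (τ : List (G × G)) {g : ℕ} (h : τ.length = g) :
    ((List.finRange g).map fun i => (gf τ h (i, true), gf τ h (i, false))) = τ := by
  refine List.ext_getElem ?_ fun i h1 h2 => ?_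
  · rw [List.length_map, List.length_finRange, h]
  · rw [List.getElem_map, List.getElem_finRange]
    rfl

/-- a list of pairs whose product of commutators is one gives a homomorphism -/
theorem exists_hom (τ : List (G × G)) {g : ℕ} (h : τ.length = g) (h1 : cp τ = 1) :
    ∃ F : SG g →* G, (st g).map (Prod.map F F) = τ := by
  have hr : ∀ r ∈ ({rel g} : Set (FreeGroup (Fin g × Bool))), FreeGroup.lift (gf τ h) r = 1 := by
    intro r hr
    rw [Set.mem_singleton_iff.1 hr, lift_rel, gf_map, h1]
  refine ⟨PresentedGroup.toGroup hr, ?_⟩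
  conv_rhs => rw [← gf_map τ h]
  unfold st
  rw [List.map_map]
  refine List.map_congr_left fun i _ => ?_
  show (PresentedGroup.toGroup hr (PresentedGroup.of (i, true)),
    PresentedGroup.toGroup hr (PresentedGroup.of (i, false))) = _
  rw [PresentedGroup.toGroup.of, PresentedGroup.toGroup.of]

theorem hom_ext {g : ℕ} (F F' : SG g →* G)
    (h : (st g).map (Prod.map F F) = (st g).map (Prod.map F' F')) : F = F' := by
  refine PresentedGroup.ext fun x => ?_
  obtain ⟨i, b⟩ := x
  have h1 := List.map_eq_map_iff.1 h (ga i, gb i) (by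
    unfold st
    exact List.mem_map_of_mem (f := fun i => (ga i, gb i)) (List.mem_finRange i))
  have h2 := congrArg Prod.fst h1
  have h3 := congrArg Prod.snd h1
  cases b
  · exact h3
  · exact h2

theorem cp_map (F : G →* H) (l : List (G × G)) : cp (l.map (Prod.map F F)) = F (cp l) := by
  unfold cp
  rw [map_list_prod, List.map_map, List.map_map]
  congr 1
  refine List.map_congr_left fun p _ => ?_
  exact (map_commutatorElement F p.1 p.2).symm

theorem cp_st (g : ℕ) : cp (st g) = 1 := by
  have h1 : cp (st g) = FreeGroup.lift (fun x => (PresentedGroup.of x : SG g)) (rel g) := by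
    rw [lift_rel]
    rfl
  have h2 : FreeGroup.lift (fun x => (PresentedGroup.of x : SG g)) = PresentedGroup.mk {rel g} := by
    ext x
    simp [PresentedGroup.of]
  rw [h1, h2]
  exact (QuotientGroup.eq_one_iff _).2 (Subgroup.subset_normalClosure rfl)

/-- the automorphism given by a list of moves -/
theorem exists_aut (g : ℕ) (ms : List Mv) :
    ∃ φ : SG g ≃* SG g, (st g).map (Prod.map φ φ) = acts ms (st g) := by
  obtain ⟨F, hF⟩ := exists_hom (acts ms (st g)) ((acts_length _ _).trans (st_length g))
    ((cp_acts _ _).trans (cp_st g))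
  obtain ⟨F', hF'⟩ := exists_hom (acts (invs ms) (st g)) ((acts_length _ _).trans (st_length g))
    ((cp_acts _ _).trans (cp_st g))
  have h1 : F.comp F' = MonoidHom.id _ := by
    refine hom_ext _ _ ?_
    have e : (st g).map (Prod.map (F.comp F') (F.comp F')) =
        ((st g).map (Prod.map F' F')).map (Prod.map F F) := by
      rw [List.map_map]
      rfl
    rw [e, hF', map_acts, hF, acts_invs]
    exact (List.map_id _).symm
  have h2 : F'.comp F = MonoidHom.id _ := by
    refine hom_ext _ _ ?_
    have e : (st g).map (Prod.map (F'.comp F) (F'.comp F)) =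
        ((st g).map (Prod.map F F)).map (Prod.map F' F') := by
      rw [List.map_map]
      rfl
    rw [e, hF, map_acts, hF', acts_invs']
    exact (List.map_id _).symm
  exact ⟨MonoidHom.toMulEquiv F F' h2 h1, hF⟩

private def s3u : Equiv.Perm (Fin 3) := Equiv.swap 0 1

private def s3v : Equiv.Perm (Fin 3) := Equiv.swap 1 2

private theorem s3_ne : ⁅s3u, s3v⁆ ≠ 1 := by
  unfold s3u s3v
  decide

private theorem s3_mul : ⁅s3u, s3v⁆ * ⁅s3v, s3u⁆ = 1 := by
  unfold s3u s3v
  decide

private theorem cp_rep (n : ℕ) : cp (List.replicate n ((1 : G), (1 : G))) = 1 := by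
  unfold cp
  rw [List.map_replicate]
  simp

private theorem cp_cons (p : G × G) (l : List (G × G)) : cp (p :: l) = ⁅p.1, p.2⁆ * cp l := rfl

private theorem cp_append (l l' : List (G × G)) : cp (l ++ l') = cp l * cp l' := by
  unfold cp
  rw [List.map_append, List.prod_append]

/-- the separating curves are essential -/
theorem sep_ne {g k : ℕ} (h0 : 0 < k) (hk : k < g) : sep g k ≠ 1 := by
  obtain ⟨m, rfl⟩ : ∃ m, g = m + 2 := ⟨g - 2, by omega⟩
  obtain ⟨F, hF⟩ := exists_hom (g := m + 2)
    ((s3u, s3v) :: (List.replicate m (1, 1) ++ [(s3v, s3u)])) (by simp) (by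
      rw [cp_cons, cp_append, cp_rep, one_mul]
      show ⁅s3u, s3v⁆ * (⁅s3v, s3u⁆ * 1) = 1
      rw [mul_one]
      exact s3_mul)
  intro h
  have h1 : F (sep (m + 2) k) = ⁅s3u, s3v⁆ := by
    rw [← cp_take, ← cp_map, List.map_take, hF]
    obtain ⟨j, rfl⟩ : ∃ j, k = j + 1 := ⟨k - 1, by omega⟩
    rw [List.take_succ_cons, cp_cons, List.take_append_of_le_length (by
      rw [List.length_replicate]
      omega), List.take_replicate, cp_rep, mul_one]
  rw [h, map_one] at h1
  exact s3_ne h1.symm

/-- the commutator of the first two `a` is not one -/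
theorem comm_ne {g : ℕ} (h2 : 2 ≤ g) :
    ⁅ga (⟨0, by omega⟩ : Fin g), ga (⟨1, by omega⟩ : Fin g)⁆ ≠ 1 := by
  obtain ⟨m, rfl⟩ : ∃ m, g = m + 2 := ⟨g - 2, by omega⟩
  obtain ⟨F, hF⟩ := exists_hom (g := m + 2)
    ((s3u, 1) :: (s3v, 1) :: List.replicate m (1, 1)) (by simp) (by
      rw [cp_cons, cp_cons, cp_rep]
      simp)
  intro h
  have h0 : (st (m + 2))[0]? = some (ga ⟨0, by omega⟩, gb ⟨0, by omega⟩) := by
    unfold st
    rw [List.getElem?_map]
    simp
  have h1 : (st (m + 2))[1]? = some (ga ⟨1, by omega⟩, gb ⟨1, by omega⟩) := by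
    unfold st
    rw [List.getElem?_map]
    simp
  have e0 : F (ga ⟨0, by omega⟩) = s3u := by
    have := congrArg (fun l => l[0]?) hF
    simp only [List.getElem?_map, h0] at this
    simpa using congrArg (Option.map Prod.fst) this
  have e1 : F (ga ⟨1, by omega⟩) = s3v := by
    have := congrArg (fun l => l[1]?) hF
    simp only [List.getElem?_map, h1] at this
    simpa using congrArg (Option.map Prod.fst) this
  have h3 := congrArg F h
  rw [map_commutatorElement, e0, e1, map_one] at h3
  exact s3_ne h3

/-- the positive half -/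
theorem part_one (g : ℕ) (hg : 2 ≤ g) (n : ℕ) (hng : n < g) (N : ℕ → Subgroup G) (h0 : N 0 = ⊤)
    (hn : ∀ i < n, ∀ x ∈ N i, ∀ y ∈ N (i + 1), x * y * x⁻¹ ∈ N (i + 1))
    (hc : ∀ i < n, ∃ s ∈ N i, ∀ x ∈ N i, ∃ k : ℤ, (s ^ k)⁻¹ * x ∈ N (i + 1))
    (hab : ∀ x ∈ N n, ∀ y ∈ N n, x * y = y * x) (f : SG g →* G) :
    ∃ x : SG g, IsCurve g x ∧ x ≠ 1 ∧ f x = 1 := by
  obtain ⟨ms, hms⟩ := red_chain n N hn hc ((st g).map (Prod.map f f)) (fun p _ => by
    rw [h0]
    exact ⟨Subgroup.mem_top _, Subgroup.mem_top _⟩)
  obtain ⟨φ, hφ⟩ := exists_aut g ms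
  refine ⟨φ (sep g (g - 1)), Or.inr ⟨φ, g - 1, by omega, by omega, rfl⟩, ?_, ?_⟩
  · intro h
    refine sep_ne (g := g) (k := g - 1) (by omega) (by omega) ?_
    exact φ.injective (by rw [h, map_one])
  · obtain ⟨L, hL⟩ : ∃ L, L = acts ms ((st g).map (Prod.map f f)) := ⟨_, rfl⟩
    have hlen : L.length = g := by rw [hL, acts_length, List.length_map, st_length]
    have h1 : f (φ (sep g (g - 1))) = cp (L.take (g - 1)) := by
      have e : (L.take (g - 1)) =
          ((st g).take (g - 1)).map (Prod.map (f.comp φ.toMonoidHom) (f.comp φ.toMonoidHom)) := by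
        rw [hL, ← map_acts, ← hφ, List.map_map, List.map_take]
        rfl
      rw [e, cp_map, cp_take]
      rfl
    have h2 : cp L = 1 := by
      rw [hL, cp_acts, cp_map, cp_st, map_one]
    have h3 : cp (L.drop (g - 1)) = 1 := by
      have h4 : (L.drop (g - 1)).length = 1 := by
        rw [List.length_drop, hlen]
        omega
      obtain ⟨p, hp⟩ := List.length_eq_one_iff.1 h4
      have h5 : p ∈ L.drop n := by
        have h6 : L.drop (g - 1) = (L.drop n).drop (g - 1 - n) := by
          rw [List.drop_drop]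
          congr 1
          omega
        have h7 : p ∈ (L.drop n).drop (g - 1 - n) := by
          rw [← h6, hp]
          exact List.mem_singleton_self p
        exact List.mem_of_mem_drop h7
      rw [hL] at h5
      obtain ⟨h8, h9⟩ := hms p h5
      rw [hp, cp_cons]
      show ⁅p.1, p.2⁆ * 1 = 1
      rw [mul_one, commutatorElement_eq_one_iff_mul_comm]
      exact hab _ h8 _ h9
    have h4 : cp L = cp (L.take (g - 1)) * cp (L.drop (g - 1)) := by
      rw [← cp_append, List.take_append_drop]
    rw [h1]
    rw [h3, mul_one] at h4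
    rw [← h4, h2]

end Pool.Agent.Helper78.SLC
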